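import Mathlib
import Pool.Agent.Helper35.LP.StepX

/-!
# SK-1: the commuting step from either side

`N = N0 * r ^ (e + 1)`.  `Top0 N0 r e A L`: all exponential sums of the classes of `L` modulo `r` at the differences
of elements of `A` in different classes modulo `r ^ (e + 1)` vanish (the top level of `A` is of type zero).
If for every `L` with `K` elements either all partners `A` satisfy `Top0 A L` or all satisfy `Top0 L A` then the modulus may
be divided by `r`.  In the second case `(low (z - A), L)` is a pair modulo `N0 * r ^ e` for every `z`.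
-/

set_option autoImplicit false

namespace Pool.Agent.Helper48.SK

open Pool.Agent.Helper92.SS
open Pool.Agent.Helper35.LP

/-- The top level of `A` is of type zero. -/
def Top0 (N0 r e : ℕ) (A L : Finset ℤ) : Prop :=
  ∀ a ∈ A, ∀ b ∈ A, ¬ ((r ^ (e + 1) : ℕ) : ℤ) ∣ a - b →
    ∀ c : ℤ, fs (N0 * r ^ (e + 1)) r L c (a - b) = 0

theorem pa_neg {N : ℕ} {A L : Finset ℤ} (h : Pa N A L) (z : ℤ) :
    Pa N (A.image fun a => z - a) L := by
  classical
  have hinj : Function.Injective fun a : ℤ => z - a := fun a b hab => by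
    simpa using hab
  refine ⟨by rw [Finset.card_image_of_injective _ hinj]; exact h.1, ?_⟩
  intro l hl l' hl' hne
  rw [Finset.sum_image fun a _ b _ hab => hinj hab]
  have h1 : ∀ a ∈ A, ec N ((z - a) * (l - l')) = ec N (z * (l - l')) * ec N (a * (l' - l)) := by
    intro a _
    rw [← ec_add]
    congr 1
    ring
  rw [Finset.sum_congr rfl h1, ← Finset.mul_sum, h.2 l' hl' l hl (Ne.symm hne), mul_zero]

theorem low_of {N0 r : ℕ} (hr : r.Prime) (hrN : ¬ r ∣ N0) {x y : ℤ} {j : ℕ} (hj : j < r)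
    (hx : x = r * y + N0 * j) : dg r N0 x = j ∧ low r N0 x = y := by
  have : Fact r.Prime := ⟨hr⟩
  have h1 : (N0 : ZMod r) ≠ 0 := by
    intro h
    exact hrN ((ZMod.natCast_eq_zero_iff N0 r).1 h)
  have h2 : dg r N0 x = j := by
    unfold dg
    rw [hx]
    push_cast
    rw [ZMod.natCast_self, zero_mul, zero_add, mul_comm (N0 : ZMod r) (j : ZMod r), mul_assoc,
      mul_inv_cancel₀ h1, mul_one, ZMod.val_cast_of_lt hj]
  refine ⟨h2, ?_⟩
  unfold low
  rw [h2, hx, add_sub_cancel_right]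
  exact Int.mul_ediv_cancel_left y (by exact_mod_cast hr.pos.ne')

theorem tiL {N0 r e : ℕ} (hr : r.Prime) (hrN : ¬ r ∣ N0) {A C0 : Finset ℤ}
    (hc : ∀ z : ℤ, ((A.image fun a => z - a).image (low r N0)).card = A.card)
    (h : ∀ z : ℤ, Ti (N0 * r ^ e) ((A.image fun a => z - a).image (low r N0)) C0) :
    Ti (N0 * r ^ (e + 1)) A
      ((C0 ×ˢ Finset.range r).image fun x => (N0 : ℤ) * (x.2 : ℤ) - r * x.1) := by
  classical
  have hinjC : Set.InjOn (fun x : ℤ × ℕ => (N0 : ℤ) * (x.2 : ℤ) - r * x.1)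
      (C0 ×ˢ Finset.range r : Finset (ℤ × ℕ)) := by
    rintro ⟨u, j⟩ hx ⟨u', j'⟩ hx' hxx
    rw [Finset.mem_coe, Finset.mem_product, Finset.mem_range] at hx hx'
    simp only at hx hx' hxx
    obtain ⟨h1, h2⟩ := low_of (x := (N0 : ℤ) * (j : ℤ) - r * u) (y := -u) hr hrN hx.2 (by ring)
    obtain ⟨h3, h4⟩ := low_of (x := (N0 : ℤ) * (j' : ℤ) - r * u') (y := -u') hr hrN hx'.2 (by ring)
    rw [hxx, h3] at h1
    rw [hxx, h4] at h2
    have h5 : j = j' := by omega
    have h6 : u = u' := by omega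
    rw [h5, h6]
  refine ⟨?_, ?_⟩
  · rw [Finset.card_image_of_injOn hinjC, Finset.card_product, Finset.card_range, ← hc 0,
      ← mul_assoc, (h 0).1, mul_assoc, ← pow_succ]
  · intro a ha a' ha' c hc1 c' hc1' hd
    obtain ⟨⟨u, j⟩, hu, rfl⟩ := Finset.mem_image.1 hc1
    obtain ⟨⟨u', j'⟩, hu', rfl⟩ := Finset.mem_image.1 hc1'
    rw [Finset.mem_product, Finset.mem_range] at hu hu'
    simp only at hu hu' hd ⊢
    obtain ⟨k, hk⟩ := hd
    set z : ℤ := a + ((N0 : ℤ) * (j : ℤ) - r * u) with hz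
    obtain ⟨h1, h2⟩ := low_of (x := z - a) (y := -u) hr hrN hu.2 (by rw [hz]; ring)
    obtain ⟨h3, h4⟩ := low_of (x := z - a') (y := -u' + (N0 * r ^ e : ℕ) * k) hr hrN hu'.2 (by
      have e1 : z - a' = ((N0 : ℤ) * (j' : ℤ) - r * u') + ((N0 * r ^ (e + 1) : ℕ) : ℤ) * k := by
        rw [← hk]
        ring
      rw [e1]
      push_cast
      ring)
    have hm1 : low r N0 (z - a) ∈ (A.image fun a => z - a).image (low r N0) :=
      Finset.mem_image_of_mem _ (Finset.mem_image_of_mem _ ha)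
    have hm2 : low r N0 (z - a') ∈ (A.image fun a => z - a).image (low r N0) :=
      Finset.mem_image_of_mem _ (Finset.mem_image_of_mem _ ha')
    obtain ⟨h5, h6⟩ := (h z).2 _ hm1 _ hm2 u hu.1 u' hu'.1 (by
      rw [h2, h4]
      refine ⟨-k, ?_⟩
      ring)
    have hinj : Set.InjOn (low r N0) (A.image fun a => z - a : Finset ℤ) := by
      apply Finset.card_image_iff.1
      rw [hc z, Finset.card_image_of_injective]
      intro x y hxy
      simpa using hxy
    have h7 : z - a = z - a' := hinj (Finset.mem_coe.2 (Finset.mem_image_of_mem _ ha))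
      (Finset.mem_coe.2 (Finset.mem_image_of_mem _ ha')) h5
    have h8 : j = j' := by
      rw [h7, h3] at h1
      omega
    refine ⟨by omega, ?_⟩
    rw [h8, h6]

/-- The commuting step from either side. -/
theorem step01 {N0 r e K : ℕ} (hN0 : 0 < N0) (hr : r.Prime) (hrN : ¬ r ∣ N0) (hK : 0 < K)
    (h : UCK (N0 * r ^ e) K)
    (hp : ∀ L : Finset ℤ, L.card = K →
      (∀ A : Finset ℤ, Pa (N0 * r ^ (e + 1)) A L → Top0 N0 r e A L) ∨
      (∀ A : Finset ℤ, Pa (N0 * r ^ (e + 1)) A L → Top0 N0 r e L A)) :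
    UCK (N0 * r ^ (e + 1)) K := by
  classical
  have hM : 0 < N0 * r ^ e := Nat.mul_pos hN0 (pow_pos hr.pos e)
  intro L hL
  rcases hp L hL with h1 | h1
  · by_cases hex : ∃ A : Finset ℤ, Pa (N0 * r ^ (e + 1)) A L
    swap
    · exact ⟨∅, fun A hA => absurd ⟨A, hA⟩ hex⟩
    obtain ⟨A0, hA0⟩ := hex
    have key : ∀ A : Finset ℤ, Pa (N0 * r ^ (e + 1)) A L → A.Nonempty ∧
        Pa (N0 * r ^ e) A (L.image (low r N0)) := by
      intro A hA
      have hAne : A.Nonempty := by rw [← Finset.card_pos, hA.1, hL]; exact hK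
      exact ⟨hAne, stepC hN0 hr hrN hA hAne (h1 A hA)⟩
    have hLc : (L.image (low r N0)).card = K := by
      rw [← (key A0 hA0).2.1, hA0.1, hL]
    obtain ⟨C0, hC0⟩ := h _ hLc
    refine ⟨up r (N0 * r ^ e) C0, ?_⟩
    intro A hA
    have h4 := tiC hM hr.pos (key A hA).1 (hC0 A (key A hA).2)
    rwa [mul_assoc, ← pow_succ] at h4
  · have hLne : L.Nonempty := by rw [← Finset.card_pos, hL]; exact hK
    obtain ⟨C0, hC0⟩ := h L hL
    refine ⟨(C0 ×ˢ Finset.range r).image fun x => (N0 : ℤ) * (x.2 : ℤ) - r * x.1, ?_⟩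
    intro A hA
    have key : ∀ z : ℤ, Pa (N0 * r ^ e) ((A.image fun a => z - a).image (low r N0)) L := by
      intro z
      have h2 := pa_neg hA z
      exact pa_symm (stepC hN0 hr hrN (pa_symm h2) hLne (h1 _ h2))
    exact tiL hr hrN (fun z => by rw [(key z).1, hA.1]) (fun z => hC0 _ (key z))

theorem card_sum {r : ℕ} (hr : 0 < r) (L : Finset ℤ) : L.card = ∑ c ∈ Finset.range r, cn L r c := by
  have h1 := cn_split (m := 1) (r := r) Nat.one_pos hr L 0
  have h2 : cn L 1 0 = L.card := by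
    unfold cn
    congr 1
    refine Finset.filter_true_of_mem fun a _ => ?_
    rw [Nat.cast_one]
    exact one_dvd _
  rw [h2] at h1
  rw [h1]
  refine Finset.sum_congr rfl fun s _ => ?_
  rw [one_mul, zero_add, Nat.cast_one, mul_one]

/-- The integrality with classes modulo `r` on both sides, if the exponent is at least two. -/
theorem intg2 {N0 r e : ℕ} (hN0 : 0 < N0) (hr : r.Prime) (hrN : ¬ r ∣ N0) (he : 0 < e)
    {A L : Finset ℤ} (h : Pa (N0 * r ^ (e + 1)) A L) (x c : ℤ) :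
    A.card ∣ cn A r x * cn L r c := by
  obtain ⟨f, rfl⟩ : ∃ f, e = f + 1 := ⟨e - 1, by omega⟩
  have h' : Pa (r ^ (f + 1 + 1) * N0) A L := by
    rwa [mul_comm]
  have h1 : cn A r x = ∑ s ∈ Finset.range (r ^ f), cn A (r * r ^ f) (x + s * r) :=
    cn_split hr.pos (pow_pos hr.pos f) A x
  rw [h1, Finset.sum_mul]
  refine Finset.dvd_sum fun s _ => ?_
  have h2 := intg hr hN0 hrN (i := f + 1) (by omega) h' (x + s * r) c
  have h3 : f + 1 + 1 - (f + 1) = 1 := by omega
  rwa [h3, pow_one, pow_succ'] at h2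

end Pool.Agent.Helper48.SK
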