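import Mathlib
import Pool.Agent.Helper48.SK.Step01
import Pool.Agent.Helper35.LP.Base

/-!
# SK-2: reducing the exponent of a prime `r` with `r ∥ K` and `K < r ^ 2` to one
-/

set_option autoImplicit false

namespace Pool.Agent.Helper48.SK

open Pool.Agent.Helper92.SS
open Pool.Agent.Helper35.LP

/-- If for every class of the last level the number `μ` given by `level` is zero then the top level is of type zero. -/
theorem top0_of_level {N0 r e : ℕ} (hN0 : 0 < N0) (hr : r.Prime) (hr3 : 3 ≤ r) (hrN : ¬ r ∣ N0)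
    {A L : Finset ℤ} (h : Pa (N0 * r ^ (e + 1)) A L) (hA : A.Nonempty)
    (hμ : ∀ (t : ℤ) (μ : ℕ) (w : ℕ → ℕ → ℕ),
      (∀ s < r, ∀ c < r, r * (cn A (r ^ e * r) (t + s * (r ^ e : ℕ)) * cn L r c) =
        A.card * (μ + r * w s c)) →
      (∀ s < r, μ + ∑ c ∈ Finset.range r, w s c = cn A (r ^ e * r) (t + s * (r ^ e : ℕ))) →
      μ = 0) : Top0 N0 r e A L := by
  intro a ha b hb hab c
  by_cases hd : ((r ^ e : ℕ) : ℤ) ∣ a - b
  swap
  · exact glev hN0 hr hrN h ha hb hd c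
  obtain ⟨μ, w, h1, h2, h3, -⟩ := level hN0 hr hr3 hrN h hA b
  exact h3 (hμ b μ w h1 h2) a ha b hb hd (by rw [sub_self]; exact dvd_zero _) hab c

theorem top0_of {N0 r e K0 : ℕ} (hN0 : 0 < N0) (hr : r.Prime) (hr3 : 3 ≤ r) (hrN : ¬ r ∣ N0)
    (hK0 : 0 < K0) (hlt : K0 < r) {A L : Finset ℤ} (h : Pa (N0 * r ^ (e + 1)) A L)
    (hA : A.card = r * K0) (hL : ∀ c : ℤ, r ∣ cn L r c) : Top0 N0 r e A L := by
  have hApos : 0 < A.card := by rw [hA]; exact Nat.mul_pos hr.pos hK0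
  refine top0_of_level hN0 hr hr3 hrN h (Finset.card_pos.1 hApos) ?_
  intro t μ w h1 _
  by_contra hμ
  have h3 : ∀ c ∈ Finset.range r, r ≤ cn L r c := by
    intro c hc
    have h4 := h1 0 hr.pos c (Finset.mem_range.1 hc)
    have h5 : 0 < A.card * (μ + r * w 0 c) := Nat.mul_pos hApos (by omega)
    rw [← h4] at h5
    have h6 : 0 < cn L r c := by
      rcases Nat.eq_zero_or_pos (cn L r c) with h7 | h7
      · rw [h7, mul_zero, mul_zero] at h5
        omega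
      · exact h7
    exact Nat.le_of_dvd h6 (hL c)
  have h4 := Finset.sum_le_sum h3
  rw [← card_sum hr.pos L, Finset.sum_const, Finset.card_range, smul_eq_mul, ← h.1, hA] at h4
  have h5 := Nat.le_of_mul_le_mul_left h4 hr.pos
  omega

/-- The classes of a partner have sizes divisible by `r`. -/
theorem dvd_cls {N0 r e K0 : ℕ} (hN0 : 0 < N0) (hr : r.Prime) (hrN : ¬ r ∣ N0) (he : 0 < e)
    {A L : Finset ℤ} (h : Pa (N0 * r ^ (e + 1)) A L) (hA : A.card = r * K0) {c : ℤ}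
    (hc : ¬ r ∣ cn L r c) (x : ℤ) : r ∣ cn A r x := by
  have h1 := intg2 hN0 hr hrN he h x c
  rw [hA] at h1
  exact ((Nat.Prime.dvd_mul hr).1 ((dvd_mul_right r K0).trans h1)).resolve_right hc

theorem uck_shrink_step {N0 r e K0 : ℕ} (hN0 : 0 < N0) (hr : r.Prime) (hr3 : 3 ≤ r)
    (hrN : ¬ r ∣ N0) (he : 0 < e) (hK0 : 0 < K0) (hlt : K0 < r)
    (h : UCK (N0 * r ^ e) (r * K0)) : UCK (N0 * r ^ (e + 1)) (r * K0) := by
  refine step01 hN0 hr hrN (Nat.mul_pos hr.pos hK0) h ?_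
  intro L hL
  by_cases hc : ∀ c : ℤ, r ∣ cn L r c
  · left
    intro A hA
    exact top0_of hN0 hr hr3 hrN hK0 hlt hA (hA.1.trans hL) hc
  · right
    push Not at hc
    obtain ⟨c, hc⟩ := hc
    intro A hA
    exact top0_of hN0 hr hr3 hrN hK0 hlt (pa_symm hA) hL
      (fun x => dvd_cls hN0 hr hrN he hA (hA.1.trans hL) hc x)

/-- The exponent of a prime `r` with `r ∥ K`, `K < r ^ 2` may be raised from one to any number. -/
theorem uck_shrink {N0 r K0 : ℕ} (hN0 : 0 < N0) (hr : r.Prime) (hr3 : 3 ≤ r)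
    (hrN : ¬ r ∣ N0) (hK0 : 0 < K0) (hlt : K0 < r) (h : UCK (N0 * r) (r * K0)) (e : ℕ) :
    UCK (N0 * r ^ (e + 1)) (r * K0) := by
  induction e with
  | zero => rwa [zero_add, pow_one]
  | succ e ih => exact uck_shrink_step hN0 hr hr3 hrN (Nat.succ_pos e) hK0 hlt ih

/-- A vanishing sum of roots of unity of order a power of `l` has a number of terms divisible by `l`. -/
theorem dvd_card_of_ec {α : Type} {l k : ℕ} (hl : l.Prime) (S : Finset α) (f : α → ℤ)
    (h : ∑ s ∈ S, ec (l ^ k) (f s) = 0) : l ∣ S.card := by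
  have hm : 0 < l ^ k := pow_pos hl.pos k
  rcases Nat.eq_zero_or_pos k with hk | hk
  · subst hk
    have h1 : ∀ s ∈ S, ec (l ^ 0) (f s) = 1 := by
      intro s _
      rw [ec_eq_one_iff hm]
      simp
    rw [Finset.sum_congr rfl h1, Finset.sum_const, nsmul_eq_mul, mul_one] at h
    have h2 : S.card = 0 := by exact_mod_cast h
    rw [h2]
    exact dvd_zero _
  set v : ℂ := ec (l ^ k) 1 with hvdef
  have hv : IsPrimitiveRoot v (l ^ k) := ec_primitive hm
  have hv0 : v ≠ 0 := hv.ne_zero hm.ne'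
  have hmz : ((l ^ k : ℕ) : ℤ) ≠ 0 := by exact_mod_cast hm.ne'
  set P : Polynomial ℤ := ∑ s ∈ S, Polynomial.X ^ ((f s % ((l ^ k : ℕ) : ℤ)).toNat) with hP
  have hterm : ∀ s, v ^ ((f s % ((l ^ k : ℕ) : ℤ)).toNat) = ec (l ^ k) (f s) := by
    intro s
    have h1 : (((f s % ((l ^ k : ℕ) : ℤ)).toNat : ℕ) : ℤ) = f s % ((l ^ k : ℕ) : ℤ) :=
      Int.toNat_of_nonneg (Int.emod_nonneg _ hmz)
    rw [hvdef, ec_pow, h1, mul_one]
    refine ec_congr hm ?_
    have h2 := Int.emod_add_mul_ediv (f s) ((l ^ k : ℕ) : ℤ)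
    refine ⟨-(f s / ((l ^ k : ℕ) : ℤ)), ?_⟩
    linear_combination h2
  have hroot : Polynomial.aeval v P = 0 := by
    rw [hP, map_sum, ← h]
    refine Finset.sum_congr rfl fun s _ => ?_
    rw [map_pow, Polynomial.aeval_X, hterm s]
  have hdvd : Polynomial.cyclotomic (l ^ k) ℤ ∣ P := by
    rw [Polynomial.cyclotomic_eq_minpoly hv hm]
    exact minpoly.isIntegrallyClosed_dvd (hv.isIntegral hm) hroot
  obtain ⟨g, hg⟩ := hdvd
  have he : P.eval 1 = (S.card : ℤ) := by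
    rw [hP, Polynomial.eval_finsetSum]
    simp
  have h2 : (Polynomial.cyclotomic (l ^ k) ℤ).eval 1 = (l : ℤ) := by
    obtain ⟨k', rfl⟩ : ∃ k', k = k' + 1 := ⟨k - 1, by omega⟩
    have : Fact l.Prime := ⟨hl⟩
    exact Polynomial.eval_one_cyclotomic_prime_pow k'
  have h3 : (l : ℤ) ∣ (S.card : ℤ) := by
    rw [← he, hg, Polynomial.eval_mul, h2]
    exact dvd_mul_right _ _
  exact_mod_cast h3

end Pool.Agent.Helper48.SK
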