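import Mathlib
import Pool.Agent.Helper48.SK.Shrink

/-!
# SK-3: `p q` points, any denominator

`p < q` odd primes, `K = p q`.  The exponent of `q` is reduced to one by `uck_shrink`.  The step for `p` with
`N0 = 2 ^ a * q` (`pp_step`): let `L` be given, `e > 0`.
(1) All classes of `L` modulo `p` have sizes divisible by `p`.  If `μ > 0` at a class of `A` modulo `p ^ e`: not all classes of
`L` have sizes divisible by `q` (they would all be equal to `q`), so `q` divides all `|A_x|`, hence `A` is in one class modulo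
`p ^ e`; so no two elements of `L` are congruent modulo `p q` (a vanishing sum of `p q` roots of unity of order a power of
two), so the classes of `L` modulo `p` have `q` elements, a contradiction.
(2) Otherwise `p` divides the sizes of all classes of all partners `A` modulo `p`.  If `μ > 0` at a class of `L` modulo `p ^ e`:
not all classes of `A` modulo `p` have sizes divisible by `q`, so `L` is in one class modulo `p ^ e`, a contradiction.
-/

set_option autoImplicit false

namespace Pool.Agent.Helper48.SK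

open Pool.Agent.Helper92.SS
open Pool.Agent.Helper35.LP

/-- If `μ > 0` and not all classes of `L` have sizes divisible by the prime `q` then all subclasses of `A` have `q` elements. -/
theorem all_q {p q e K : ℕ} (hp : p.Prime) (hq : q.Prime) (hK : K = p * q)
    {A L : Finset ℤ} (hA : A.card = K) {t : ℤ} {μ : ℕ} {w : ℕ → ℕ → ℕ} (hμ : 0 < μ)
    (h1 : ∀ s < p, ∀ c < p, p * (cn A (p ^ e * p) (t + s * (p ^ e : ℕ)) * cn L p c) =
        A.card * (μ + p * w s c)) {c : ℕ} (hc : c < p) (hqc : ¬ q ∣ cn L p c) :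
    ∀ a ∈ A, ((p ^ e : ℕ) : ℤ) ∣ a - t := by
  have h2 : ∀ s ∈ Finset.range p, q ≤ cn A (p ^ e * p) (t + s * (p ^ e : ℕ)) := by
    intro s hs
    have h3 := h1 s (Finset.mem_range.1 hs) c hc
    rw [hA, hK, mul_assoc] at h3
    have h4 := Nat.eq_of_mul_eq_mul_left hp.pos h3
    have h5 : 0 < q * (μ + p * w s c) := Nat.mul_pos hq.pos (by omega)
    rw [← h4] at h5
    have h6 : 0 < cn A (p ^ e * p) (t + s * (p ^ e : ℕ)) := Nat.pos_of_mul_pos_right h5
    have h7 : q ∣ cn A (p ^ e * p) (t + s * (p ^ e : ℕ)) * cn L p c := by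
      rw [h4]
      exact dvd_mul_right _ _
    exact Nat.le_of_dvd h6 (((Nat.Prime.dvd_mul hq).1 h7).resolve_right hqc)
  have h3 := Finset.sum_le_sum h2
  rw [← cn_split (pow_pos hp.pos e) hp.pos A t, Finset.sum_const, Finset.card_range, smul_eq_mul,
    ← hK, ← hA] at h3
  have h4 : (A.filter fun a => ((p ^ e : ℕ) : ℤ) ∣ a - t) = A :=
    Finset.eq_of_subset_of_card_le (Finset.filter_subset _ _) h3
  intro a ha
  rw [← h4] at ha
  exact (Finset.mem_filter.1 ha).2

/-- A class with `μ > 0` for the other set forces a positive size. -/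
theorem pos_of_mu {p e : ℕ} (hp : p.Prime) {A L : Finset ℤ} (hA : 0 < A.card) {t : ℤ} {μ : ℕ}
    {w : ℕ → ℕ → ℕ} (hμ : 0 < μ)
    (h1 : ∀ s < p, ∀ c < p, p * (cn A (p ^ e * p) (t + s * (p ^ e : ℕ)) * cn L p c) =
        A.card * (μ + p * w s c)) {c : ℕ} (hc : c < p) : 0 < cn L p c := by
  have h4 := h1 0 hp.pos c hc
  have h5 : 0 < A.card * (μ + p * w 0 c) := Nat.mul_pos hA (by omega)
  rw [← h4] at h5
  rcases Nat.eq_zero_or_pos (cn L p c) with h7 | h7
  · rw [h7, mul_zero, mul_zero] at h5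
    omega
  · exact h7

/-- If all classes of `L` modulo `p` have sizes at least `q` and `|L| = p q` then all have `q` elements. -/
theorem all_eq {p q : ℕ} (hp : p.Prime) {L : Finset ℤ} (hL : L.card = p * q)
    (h : ∀ c < p, q ≤ cn L p c) : ∀ c < p, cn L p c = q := by
  intro c hc
  have h1 : ∑ c ∈ Finset.range p, q = ∑ c ∈ Finset.range p, cn L p c := by
    rw [← card_sum hp.pos L, hL, Finset.sum_const, Finset.card_range, smul_eq_mul]
  have h2 := (Finset.sum_eq_sum_iff_of_le fun c hc => h c (Finset.mem_range.1 hc)).1 h1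
  exact (h2 c (Finset.mem_range.2 hc)).symm

/-- If `A` is in one class modulo `p ^ e` then the elements of `L` are distinct modulo `p q`. -/
theorem inj_pq {a p q e K : ℕ} (hp : p.Prime) (hq : q.Prime) {A L : Finset ℤ}
    (h : Pa (2 ^ a * q * p ^ (e + 1)) A L) (hA : A.card = K) (hodd : ¬ 2 ∣ K) {t : ℤ}
    (hone : ∀ x ∈ A, ((p ^ e : ℕ) : ℤ) ∣ x - t) {l l' : ℤ} (hl : l ∈ L) (hl' : l' ∈ L)
    (hd : ((p * q : ℕ) : ℤ) ∣ l - l') : l = l' := by
  by_contra hne
  apply hodd
  have hN : 0 < 2 ^ a * q * p ^ (e + 1) :=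
    Nat.mul_pos (Nat.mul_pos (pow_pos (by norm_num) a) hq.pos) (pow_pos hp.pos _)
  have h2a : 0 < 2 ^ a := pow_pos (by norm_num) a
  have hqp : 0 < q * p ^ (e + 1) := Nat.mul_pos hq.pos (pow_pos hp.pos _)
  obtain ⟨d, hd⟩ := hd
  have h1 := h.2 l hl l' hl' hne
  have h2 : ∀ x ∈ A, ec (2 ^ a * q * p ^ (e + 1)) (x * (l - l')) =
      ec (2 ^ a * q * p ^ (e + 1)) (t * (l - l')) * ec (2 ^ a) ((x - t) / (p ^ e : ℕ) * d) := by
    intro x hx
    have h3 : x * (l - l') = t * (l - l') +
        ((x - t) / (p ^ e : ℕ) * d) * ((q * p ^ (e + 1) : ℕ) : ℤ) := by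
      have h4 := Int.mul_ediv_cancel' (hone x hx)
      rw [hd]
      have h5 : x = t + (p ^ e : ℕ) * ((x - t) / (p ^ e : ℕ)) := by
        rw [h4]
        ring
      conv_lhs => rw [h5]
      push_cast
      ring
    rw [h3, ec_add]
    congr 1
    rw [mul_assoc (2 ^ a) q]
    exact ec_mul_right hqp _
  rw [Finset.sum_congr rfl h2, ← Finset.mul_sum] at h1
  have h3 := (mul_eq_zero.1 h1).resolve_left (ec_ne_zero _ _)
  rw [← hA]
  exact dvd_card_of_ec Nat.prime_two A _ h3

/-- A class modulo `p` has at most `q` elements if the elements are distinct modulo `p q`. -/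
theorem cn_le_q {p q : ℕ} (hq : q.Prime) {L : Finset ℤ} (hcop : Nat.Coprime p q)
    (hinj : ∀ l ∈ L, ∀ l' ∈ L, ((p * q : ℕ) : ℤ) ∣ l - l' → l = l') (c : ℤ) : cn L p c ≤ q := by
  unfold cn
  have : NeZero q := ⟨hq.pos.ne'⟩
  have h1 : (L.filter fun l => (p : ℤ) ∣ l - c).card ≤ (Finset.univ : Finset (ZMod q)).card := by
    refine Finset.card_le_card_of_injOn (fun l => (l : ZMod q)) (fun _ _ => Finset.mem_univ _) ?_
    intro l hl l' hl' hll
    rw [Finset.mem_coe, Finset.mem_filter] at hl hl'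
    refine hinj l hl.1 l' hl'.1 ?_
    have h2 : (q : ℤ) ∣ l - l' := cast_eq_iff.1 hll
    have h3 : (p : ℤ) ∣ l - l' := by
      have h4 := dvd_sub hl.2 hl'.2
      have h5 : l - c - (l' - c) = l - l' := by ring
      rwa [h5] at h4
    push_cast
    exact IsCoprime.mul_dvd (Nat.isCoprime_iff_coprime.2 hcop) h3 h2
  rwa [Finset.card_univ, ZMod.card] at h1

theorem pp_step {a p q e : ℕ} (hp : p.Prime) (hq : q.Prime) (hp3 : 3 ≤ p) (hlt : p < q)
    (he : 0 < e) (h : UCK (2 ^ a * q * p ^ e) (p * q)) :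
    UCK (2 ^ a * q * p ^ (e + 1)) (p * q) := by
  have hN0 : 0 < 2 ^ a * q := Nat.mul_pos (pow_pos (by norm_num) a) hq.pos
  have hpq : p ≠ q := by omega
  have hcop : Nat.Coprime p q := (Nat.coprime_primes hp hq).2 hpq
  have hp2 : p ≠ 2 := by omega
  have hq2 : q ≠ 2 := by omega
  have hpN : ¬ p ∣ 2 ^ a * q := by
    intro hd
    rcases (Nat.Prime.dvd_mul hp).1 hd with h1 | h1
    · exact hp2 ((Nat.prime_dvd_prime_iff_eq hp Nat.prime_two).1 (hp.dvd_of_dvd_pow h1))
    · exact hpq ((Nat.prime_dvd_prime_iff_eq hp hq).1 h1)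
  have hK : 0 < p * q := Nat.mul_pos hp.pos hq.pos
  have hodd : ¬ 2 ∣ p * q := by
    intro hd
    rcases (Nat.Prime.dvd_mul Nat.prime_two).1 hd with h1 | h1
    · exact hp2 ((Nat.prime_dvd_prime_iff_eq Nat.prime_two hp).1 h1).symm
    · exact hq2 ((Nat.prime_dvd_prime_iff_eq Nat.prime_two hq).1 h1).symm
  refine step01 hN0 hp hpN hK h ?_
  intro L hL
  by_cases hc : ∀ c : ℤ, p ∣ cn L p c
  · left
    intro A hA
    have hAc : A.card = p * q := hA.1.trans hL
    refine top0_of_level hN0 hp hp3 hpN hA (Finset.card_pos.1 (by rw [hAc]; exact hK)) ?_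
    intro t μ w h1 _
    by_contra hμ
    have hμ' : 0 < μ := Nat.pos_of_ne_zero hμ
    have hpos : ∀ c < p, 0 < cn L p c := fun c hc' =>
      pos_of_mu hp (by rw [hAc]; exact hK) hμ' h1 hc'
    by_cases hqc : ∀ c < p, q ∣ cn L p c
    · have h2 := all_eq hp hL fun c hc' => Nat.le_of_dvd (hpos c hc') (hqc c hc')
      have h3 := hc ((0 : ℕ) : ℤ)
      rw [h2 0 hp.pos] at h3
      exact hpq ((Nat.prime_dvd_prime_iff_eq hp hq).1 h3)
    · push Not at hqc
      obtain ⟨c, hc', hqc⟩ := hqc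
      have hone := all_q hp hq rfl hAc hμ' h1 hc' hqc
      have hle : ∀ c : ℤ, cn L p c ≤ q := cn_le_q hq hcop
        (fun l hl l' hl' hd => inj_pq hp hq hA hAc hodd hone hl hl' hd)
      -- the sizes are all equal to `q`
      have h4 : ∑ c ∈ Finset.range p, cn L p c = ∑ c ∈ Finset.range p, q := by
        rw [← card_sum hp.pos L, hL, Finset.sum_const, Finset.card_range, smul_eq_mul]
      have h5 := (Finset.sum_eq_sum_iff_of_le fun (c : ℕ) _ => hle c).1 h4
      have h6 := hc ((0 : ℕ) : ℤ)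
      rw [h5 0 (Finset.mem_range.2 hp.pos)] at h6
      exact hpq ((Nat.prime_dvd_prime_iff_eq hp hq).1 h6)
  · right
    push Not at hc
    obtain ⟨c0, hc0⟩ := hc
    intro A hA
    have hAc : A.card = p * q := hA.1.trans hL
    have hdA : ∀ x : ℤ, p ∣ cn A p x := fun x => dvd_cls hN0 hp hpN he hA hAc hc0 x
    refine top0_of_level hN0 hp hp3 hpN (pa_symm hA)
      (Finset.card_pos.1 (by rw [hL]; exact hK)) ?_
    intro t μ w h1 _
    by_contra hμ
    have hμ' : 0 < μ := Nat.pos_of_ne_zero hμ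
    have hpos : ∀ c < p, 0 < cn A p c := fun c hc' =>
      pos_of_mu hp (by rw [hL]; exact hK) hμ' h1 hc'
    by_cases hqc : ∀ c < p, q ∣ cn A p c
    · have h2 := all_eq hp hAc fun c hc' => Nat.le_of_dvd (hpos c hc') (hqc c hc')
      have h3 := hdA ((0 : ℕ) : ℤ)
      rw [h2 0 hp.pos] at h3
      exact hpq ((Nat.prime_dvd_prime_iff_eq hp hq).1 h3)
    · push Not at hqc
      obtain ⟨c, hc', hqc⟩ := hqc
      have hone := all_q hp hq rfl hL hμ' h1 hc' hqc
      -- `L` is in one class modulo `p`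
      apply hc0
      have hpe : (p : ℤ) ∣ ((p ^ e : ℕ) : ℤ) :=
        Int.natCast_dvd_natCast.2 (dvd_pow_self p he.ne')
      by_cases hct : (p : ℤ) ∣ t - c0
      · have h7 : (L.filter fun l => (p : ℤ) ∣ l - c0) = L := by
          refine Finset.filter_true_of_mem fun l hl => ?_
          have h8 := dvd_add (hpe.trans (hone l hl)) hct
          rwa [sub_add_sub_cancel] at h8
        unfold cn
        rw [h7, hL]
        exact dvd_mul_right _ _
      · have h7 : (L.filter fun l => (p : ℤ) ∣ l - c0) = ∅ := by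
          refine Finset.filter_false_of_mem fun l hl h9 => hct ?_
          have h8 := dvd_sub h9 (hpe.trans (hone l hl))
          have h10 : l - c0 - (l - t) = t - c0 := by ring
          rwa [h10] at h8
        unfold cn
        rw [h7, Finset.card_empty]
        exact dvd_zero _

/-- `p q` points, any denominator. -/
theorem uck_semi {p q : ℕ} (hp : p.Prime) (hq : q.Prime) (hp3 : 3 ≤ p) (hlt : p < q)
    (a u v : ℕ) : UCK (2 ^ a * p ^ u * q ^ v) (p * q) := by
  have hpq : p ≠ q := by omega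
  have hK : 0 < p * q := Nat.mul_pos hp.pos hq.pos
  have hp2 : p ≠ 2 := by omega
  have hq2 : q ≠ 2 := by omega
  have hN0 : 0 < 2 ^ a * p ^ u := Nat.mul_pos (pow_pos (by norm_num) a) (pow_pos hp.pos u)
  -- exponent one of `q`
  have hbase : ∀ u : ℕ, UCK (2 ^ a * q * p ^ (u + 1)) (p * q) := by
    intro u
    induction u with
    | zero =>
      have h1 : Nat.Coprime 2 (p * q) := by
        rw [Nat.Prime.coprime_iff_not_dvd Nat.prime_two]
        intro hd
        rcases (Nat.Prime.dvd_mul Nat.prime_two).1 hd with h1 | h1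
        · exact hp2 ((Nat.prime_dvd_prime_iff_eq Nat.prime_two hp).1 h1).symm
        · exact hq2 ((Nat.prime_dvd_prime_iff_eq Nat.prime_two hq).1 h1).symm
      have h2 := uck_sat (n := a) Nat.prime_two hK h1 dvd_rfl hK
      rwa [zero_add, pow_one, mul_assoc, mul_comm q p]
    | succ u ih => exact pp_step hp hq hp3 hlt (Nat.succ_pos u) ih
  have hqN : ¬ q ∣ 2 ^ a * p ^ u := by
    intro hd
    rcases (Nat.Prime.dvd_mul hq).1 hd with h1 | h1
    · exact hq2 ((Nat.prime_dvd_prime_iff_eq hq Nat.prime_two).1 (hq.dvd_of_dvd_pow h1))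
    · exact hpq ((Nat.prime_dvd_prime_iff_eq hq hp).1 (hq.dvd_of_dvd_pow h1)).symm
  rcases Nat.eq_zero_or_pos v with hv | hv
  · subst hv
    rw [pow_zero, mul_one]
    exact uck_two Nat.prime_two hp (Ne.symm hp2) a u hK
  · obtain ⟨v, rfl⟩ : ∃ v', v = v' + 1 := ⟨v - 1, by omega⟩
    rw [mul_comm p q]
    refine uck_shrink hN0 hq (by omega) hqN hp.pos hlt ?_ v
    rcases Nat.eq_zero_or_pos u with hu | hu
    · subst hu
      have h1 := uck_two (K := q * p) Nat.prime_two hq (Ne.symm hq2) a 1 (by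
        rw [mul_comm]; exact hK)
      rw [pow_one] at h1
      rwa [pow_zero, mul_one]
    · obtain ⟨u, rfl⟩ : ∃ u', u = u' + 1 := ⟨u - 1, by omega⟩
      have h1 := hbase u
      rwa [mul_comm q p, mul_right_comm]

end Pool.Agent.Helper48.SK
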